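import Pool.Agent.Y820.LL.C2
import Pool.Agent.Y820.LL.P
import Pool.Agent.Y820.LF.Fin

/-!
# The Möbius function at shifted primes, after adding a bounded number of powers of `b` to the shift

For all linear forms `c i n + h i` (`i ≤ k`) and `c' n + h'` with coefficients in `[1, Q]` and constants in `[0, B X]`
one can add at most `K` powers of `b` to each of the constants such that the correlation sums
`∑_{n ≤ N} θ(n) Λ(n)^τ ∏ i, Λ(c i n + h i) μ(c' n + h')` are at most `ε X` in absolute value for all `N ≤ X`; here `θ`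
is an arbitrary function bounded by `1`, `τ` is `0` or `1`, and `K` depends on `b, k, Q, B, ε` alone. The powers can be
the same for all the data of an arbitrary family, up to a proportion `ρ` of its members. For `k = 0`, `τ = 1`, `c' = 1`
and `θ = 1` these are the sums `∑ Λ(n) μ(n + h')`.

Used from the starting files: the library `Pool.Agent.Y820` (helper820) on such correlations for a bounded function with
the bounds for the Fourier transform at frequencies with few changes of digits, and these bounds for the Möbius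
function (`Pool.Agent.W93.LM.nice_muC`).
-/

set_option autoImplicit false

namespace Pool.Agent.Results.MP_0bfb7f_nt.BoundedlyManyPowers

open Finset

/-- The Möbius function. -/
noncomputable def mu (n : ℕ) : ℝ := ((ArithmeticFunction.moebius n : ℤ) : ℝ)

/-- The correlation sum `∑_{n ≤ N} θ(n) Λ(n)^τ ∏ i, Λ(c i n + h i) μ(c' n + h')` (with the factor `Λ(n)` if
`τ = true`, without it if `τ = false`). -/
noncomputable def corr {k : ℕ} (τ : Bool) (θ : ℕ → ℝ) (c h : Fin k → ℕ) (c' h' N : ℕ) : ℝ :=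
  ∑ n ∈ Icc 1 N, θ n * (if τ then ArithmeticFunction.vonMangoldt n else 1) *
    (∏ i, ArithmeticFunction.vonMangoldt (c i * n + h i)) * mu (c' * n + h')

lemma pu_mu : Pool.Agent.Y820.LL.S_Pu (fun n => ((ArithmeticFunction.moebius n : ℤ) : ℝ)) := by
  apply Pool.Agent.Y820.LL.t_Pu
  have h : (fun n : ℕ => ((((ArithmeticFunction.moebius n : ℤ) : ℝ) : ℝ) : ℂ)) = Pool.Agent.H373R2.T7.muC := by
    funext n
    unfold Pool.Agent.H373R2.T7.muC
    push_cast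
    rfl
  rw [h]
  exact Pool.Agent.W93.LM.nice_muC

/-- For all `b ≥ 2`, `k`, `Q ≥ 1`, `B`, `ε, ρ, δ > 0` and `τ` there are `K` and `X₀` with the following property. Let
`X ≥ X₀` and let `T` be an ARBITRARY finite family of data `g = (c, h, c', h', θ)` with `1 ≤ c i, c' ≤ Q`,
`0 ≤ h i, h' ≤ B X` and with any functions `θ` bounded by `1`. There are sets `S 1, ..., S k` and `S'` of at most `K`
exponents each, with `∑_{ν ∈ S} b ^ ν ≤ δ X`, such that for all but at most `ρ |T|` of the data in `T` (in particular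
for all of them if `ρ |T| < 1`) and for ALL `N ≤ X` the correlation sum with `h i + ∑_{ν ∈ S i} b ^ ν` and
`h' + ∑_{ν ∈ S'} b ^ ν` instead of `h i` and `h'` is at most `ε X` in absolute value. -/
theorem result (b k Q B : ℕ) (hb : 2 ≤ b) (hQ : 1 ≤ Q) (ε ρ δ : ℝ) (hε : 0 < ε) (hρ : 0 < ρ) (hδ : 0 < δ) (τ : Bool) :
    ∃ K X₀ : ℕ, ∀ X : ℕ, X₀ ≤ X → ∀ (ι : Type) (T : Finset ι) (c h : ι → Fin k → ℕ) (c' h' : ι → ℕ) (θ : ι → ℕ → ℝ),
      (∀ g ∈ T, (∀ i, 1 ≤ c g i ∧ c g i ≤ Q ∧ h g i ≤ B * X) ∧ 1 ≤ c' g ∧ c' g ≤ Q ∧ h' g ≤ B * X ∧ ∀ n, |θ g n| ≤ 1) →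
      ∃ (S : Fin k → Finset ℕ) (S' : Finset ℕ), (∀ i, (S i).card ≤ K ∧ ∑ ν ∈ S i, (b : ℝ) ^ ν ≤ δ * X) ∧
        (S'.card ≤ K ∧ ∑ ν ∈ S', (b : ℝ) ^ ν ≤ δ * X) ∧ ∃ E ⊆ T, (E.card : ℝ) ≤ ρ * T.card ∧
          ∀ g ∈ T, g ∉ E → ∀ N : ℕ, N ≤ X →
            |corr τ (θ g) (c g) (fun i => h g i + ∑ ν ∈ S i, b ^ ν) (c' g) (h' g + ∑ ν ∈ S', b ^ ν) N| ≤ ε * X := by
  obtain ⟨K, X₀, hmain⟩ := Pool.Agent.Y820.LL.main (fun n => ((ArithmeticFunction.moebius n : ℤ) : ℝ))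
    (fun n => by exact_mod_cast ArithmeticFunction.abs_moebius_le_one) Pool.Agent.Y820.LF.t_SBF Pool.Agent.Y820.LT.t_R
    pu_mu b hb k Q B 1 hQ le_rfl
    ε ρ (min δ 1) hε hρ (lt_min hδ one_pos) (min_le_right _ _) τ
  refine ⟨K, X₀, fun X hX ι T c h c' h' θ hT => ?_⟩
  obtain ⟨S, _, hS2, hS3, E, hET, hEc, hE⟩ := hmain X hX ι T (fun g => Fin.cons (c' g : ℤ) (fun i => (c g i : ℤ)))
    (fun g => Fin.cons (h' g : ℤ) (fun i => (h g i : ℤ))) (fun _ _ _ => 1) θ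
    (fun g hg i => by
      obtain ⟨h1, h2, h3, _, _⟩ := hT g hg
      refine Fin.cases ?_ (fun i => ?_) i
      · rw [Fin.cons_zero, abs_of_nonneg (by positivity)]
        exact ⟨by exact_mod_cast (by omega : c' g ≠ 0), by exact_mod_cast h3⟩
      · rw [Fin.cons_succ, abs_of_nonneg (by positivity)]
        obtain ⟨h4, h5, _⟩ := h1 i
        exact ⟨by exact_mod_cast (by omega : c g i ≠ 0), by exact_mod_cast h5⟩)
    (fun _ _ _ _ => ⟨one_ne_zero, by rw [abs_one]; exact_mod_cast (by omega : 1 < b)⟩)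
    (fun g hg i => by
      obtain ⟨h1, _, _, h2, _⟩ := hT g hg
      refine Fin.cases ?_ (fun i => ?_) i
      · rw [Fin.cons_zero, abs_of_nonneg (by positivity)]
        exact_mod_cast h2
      · rw [Fin.cons_succ, abs_of_nonneg (by positivity)]
        exact_mod_cast (h1 i).2.2)
    (fun g hg n => (hT g hg).2.2.2.2 n)
  have hsz : ∀ i, ∑ ν ∈ S i, (b : ℝ) ^ ν ≤ δ * X := by
    intro i
    have h1 := hS2 i
    have h2 : (0 : ℝ) ≤ ∑ ν ∈ S i, (b : ℝ) ^ ν := sum_nonneg (fun ν _ => by positivity)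
    have h3 : (1 : ℝ) ≤ b := by exact_mod_cast (by omega : 1 ≤ b)
    have h4 : 1 * ∑ ν ∈ S i, (b : ℝ) ^ ν ≤ b * ∑ ν ∈ S i, (b : ℝ) ^ ν := mul_le_mul_of_nonneg_right h3 h2
    have h5 : min δ 1 * X ≤ δ * X := mul_le_mul_of_nonneg_right (min_le_left _ _) (Nat.cast_nonneg _)
    linarith
  refine ⟨fun i => S i.succ, S 0, fun i => ⟨hS3 _, hsz _⟩, ⟨hS3 _, hsz _⟩, E, hET, hEc, fun g hg hgE N hN => ?_⟩
  have h1 := hE g hg hgE (Fin.cons ((h' g + ∑ ν ∈ S 0, b ^ ν : ℕ) : ℤ) (fun i => ((h g i + ∑ ν ∈ S i.succ, b ^ ν : ℕ) : ℤ)))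
    (fun i => by
      refine Fin.cases ?_ (fun i => ?_) i
      · simp only [Fin.cons_zero]
        push_cast
        simp
      · simp only [Fin.cons_succ]
        push_cast
        simp) N hN
  refine le_trans (le_of_eq ?_) h1
  congr 1
  unfold corr
  apply sum_congr rfl
  intro n hn
  rw [mem_Icc] at hn
  obtain ⟨hc, hc', _, _, _⟩ := hT g hg
  unfold Pool.Agent.Y820.LL.fL Pool.Agent.Y820.LF.g0
  simp only [Fin.cons_zero, Fin.cons_succ]
  have e1 : ∀ i : Fin k, Pool.Agent.H373R2.T7.lamI ((c g i : ℤ) * (n : ℤ) + ((h g i + ∑ ν ∈ S i.succ, b ^ ν : ℕ) : ℤ)) =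
      ArithmeticFunction.vonMangoldt (c g i * n + (h g i + ∑ ν ∈ S i.succ, b ^ ν)) := by
    intro i
    have e : (c g i : ℤ) * (n : ℤ) + ((h g i + ∑ ν ∈ S i.succ, b ^ ν : ℕ) : ℤ) = ((c g i * n + (h g i + ∑ ν ∈ S i.succ, b ^ ν) : ℕ) : ℤ) := by
      push_cast; ring
    have e' : 1 ≤ c g i * n := Nat.mul_pos (hc i).1 (by omega)
    rw [e]
    unfold Pool.Agent.H373R2.T7.lamI
    rw [if_pos (by exact_mod_cast (by omega : 1 ≤ c g i * n + (h g i + ∑ ν ∈ S i.succ, b ^ ν))), Int.toNat_natCast]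
  have e2 : Pool.Agent.Y820.LL.uI (fun n => ((ArithmeticFunction.moebius n : ℤ) : ℝ)) ((c' g : ℤ) * (n : ℤ) + ((h' g + ∑ ν ∈ S 0, b ^ ν : ℕ) : ℤ)) =
      mu (c' g * n + (h' g + ∑ ν ∈ S 0, b ^ ν)) := by
    have e : (c' g : ℤ) * (n : ℤ) + ((h' g + ∑ ν ∈ S 0, b ^ ν : ℕ) : ℤ) = ((c' g * n + (h' g + ∑ ν ∈ S 0, b ^ ν) : ℕ) : ℤ) := by
      push_cast; ring
    have e' : 1 ≤ c' g * n := Nat.mul_pos hc' (by omega)
    rw [e]
    unfold Pool.Agent.Y820.LL.uI mu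
    rw [if_pos (by exact_mod_cast (by omega : 1 ≤ c' g * n + (h' g + ∑ ν ∈ S 0, b ^ ν))), Int.toNat_natCast]
  simp only [e1, e2]
  ring

end Pool.Agent.Results.MP_0bfb7f_nt.BoundedlyManyPowers
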