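import Pool.Agent.Y842.JC.Nat
import Pool.Agent.TH823.MRS.Circ5

/-!
# The Möbius function at shifted primes, for almost all shifts in windows of length `C log N`

The factor `Λ(n + a)` (more generally `f ≥ 1` factors `Λ(n + a i)`) is held fixed, the shift of the Möbius function
moves in an arbitrary window of length `H ≥ C (log N) ^ f`, and `s` further factors `Λ` may move too.  For all but a
proportion `ε` of the moving shifts all the sums up to `X ≤ N` are at most `ε N`, with an arbitrary bounded weight.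

Used from the starting files: the library `Pool.Agent.Y842.JC` (helper842; mean square over the moving shifts, Gram
matrices of the weights in short windows, upper bound sieve) and the theorem of Matomäki, Radziwiłł and Tao on
exponential sums in almost all short intervals for the Möbius function (`Pool.Agent.TH823.MRS`).
-/

set_option autoImplicit false

namespace Pool.Agent.Results.MP_0bfb7f_nt.ShortAverages

open Finset

/-- Let `f ≥ 1`, `s`, `D` and `ε > 0` be given. There are `C` and `N₀` such that for all `N ≥ N₀` and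
`C (log N) ^ f ≤ H ≤ N` the following holds for all distinct `a 1, ..., a f ≤ H` which differ by at most `D` from each
other, all `B ≤ N` and all functions `b x : ℕ → ℂ` bounded by `1` (`x ∈ ℕ ^ s`): all but at most `ε H ^ (s + 1)` of the
vectors `(x, t)` with `1 ≤ x j ≤ H` (`j < s`) and `1 ≤ t ≤ H` satisfy, for all `X ≤ N`,
`|∑ n ≤ X, b x n * ∏ i, Λ(n + a i) * ∏ j, Λ(n + x j) * μ(n + t + B)| ≤ ε N`.
For `f = 1`, `s = 0` this is the correlation `∑ Λ(n + a) μ(n + h)` with the shifts `h` in a window of length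
`C log N`. -/
theorem result (f s : ℕ) (hf : 1 ≤ f) (D : ℕ) (ε : ℝ) (hε : 0 < ε) :
    ∃ C : ℝ, ∃ N₀ : ℕ, ∀ N H : ℕ, N₀ ≤ N → C * Real.log N ^ f ≤ H → H ≤ N →
      ∀ a : Fin f → ℕ, Function.Injective a → (∀ i, a i ≤ H) → (∀ i l, a i ≤ a l + D) →
      ∀ B : ℕ, B ≤ N → ∀ b : (Fin s → ℕ) → ℕ → ℂ, (∀ x n, ‖b x n‖ ≤ 1) →
      ({x : (Fin s → ℕ) × ℕ | (∀ j, 1 ≤ x.1 j ∧ x.1 j ≤ H) ∧ (1 ≤ x.2 ∧ x.2 ≤ H) ∧
        ∃ X : ℕ, X ≤ N ∧ ε * N < ‖∑ n ∈ Icc 1 X, b x.1 n *
          (((∏ i, ArithmeticFunction.vonMangoldt (n + a i)) *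
            (∏ j, ArithmeticFunction.vonMangoldt (n + x.1 j)) *
            ((ArithmeticFunction.moebius (n + x.2 + B) : ℤ) : ℝ) : ℝ) : ℂ)‖}.ncard : ℝ) ≤
        ε * (H : ℝ) ^ (s + 1) := by
  classical
  obtain ⟨C, N₀, h⟩ := Pool.Agent.Y842.JC.mainN (fun n => ((ArithmeticFunction.moebius n : ℤ) : ℂ))
    Pool.Agent.TH823.MRS.mu_le Pool.Agent.TH823.MRS.mu_E f s hf D ε hε
  refine ⟨C, N₀, fun N H hN hCH hHN a hinj haH haD B hB b hb => ?_⟩
  refine le_trans (le_of_eq ?_) (h N hN H hCH hHN a hinj haH haD B hB b hb)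
  rw [← Set.ncard_coe_finset]
  congr 2
  ext x
  simp only [Set.mem_ofPred_eq, coe_filter, mem_product, Fintype.mem_piFinset, mem_Icc, and_assoc]
  refine and_congr_right fun _ => and_congr_right fun _ => and_congr_right fun _ => exists_congr fun X =>
    and_congr_right fun _ => ?_
  apply iff_of_eq
  congr 2
  apply sum_congr rfl
  intro n _
  push_cast
  ring

end Pool.Agent.Results.MP_0bfb7f_nt.ShortAverages
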